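import Pool.Agent.Y658.EX.B6

/-!
# Functorial lifting of simplicial monoids along normalized embeddings by exchange algebras over
every field

The starting result `EmbeddingLift` gives one functor from simplicial monoids with order-unit and
normalized embeddings to exchange rings. Here, for EVERY field `K` of any characteristic, there is
such a functor to UNITAL exchange `K`-algebras and unital `K`-algebra homomorphisms, and its
composite with `A ↦ (V(A), [1])` is naturally isomorphic to the inclusion functor into the monoids
with order-unit.

The ring of the pair `(M, u)` is the endomorphism algebra of the object `u` of the smallest
`K`-linear category with object set `M` which contains the column blocks of generic invertible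
matrices over the field of rational functions `K(X)` and is closed under inverses of column pairs.
-/

set_option autoImplicit false

open CategoryTheory Pool.Agent.H494R3.EX
open Pool.Agent.Y658.VR (V1)
open Pool.Agent.Y658.EX (inclU forgetE)

/-- For every field `K` there is a functor `Ψ` from simplicial monoids with order-unit and
normalized embeddings to unital `K`-algebras and unital `K`-algebra homomorphisms such that all
`Ψ(M)` are exchange rings, the functor `M ↦ (V(Ψ(M)), [1])` is naturally isomorphic to the inclusion
into conical commutative monoids with order-unit, and hence, forgetting units and scalars, `Ψ` is a
functor to exchange rings with `V ∘ Ψ` naturally isomorphic to the inclusion functor. -/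
theorem Pool.Agent.Results.MP_8d5706_al.EveryField.result (K : Type) [Field K] :
    ∃ (Ψ : Simp ⥤ AlgCat.{0} K) (h : ∀ M : Simp, IsExchange (Ψ.obj M)),
      Nonempty (Ψ ⋙ V1 K ≅ inclU) ∧ Nonempty (forgetE Ψ h ⋙ V ≅ incl) :=
  Pool.Agent.Y658.EX.main K
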